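import Mathlib
import Pool.Agent.H94.AC.Targets

/-!
# Real-analytic insulating cracks, module CNI: the set of interior points of a crack is connected
-/

open MeasureTheory Set Filter Topology Metric
open scoped ENNReal NNReal ContDiff RealInnerProductSpace

namespace Pool.Agent.H56.ICA

open Pool.Agent.H94.IC Pool.Agent.H94.AC

/-- translate and restrict a chart -/
theorem flat_move {S : Set E} {Ψ : OpenPartialHomeomorph E E} (h1 : ContDiffOn ℝ ∞ Ψ Ψ.source)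
    (h2 : ContDiffOn ℝ ∞ Ψ.symm Ψ.target) {V : Set E} (hV : IsOpen V) {q : E} (hq : q ∈ Ψ.source)
    (hqV : q ∈ V) (hq2 : (Ψ q) 2 = 0) (hS : ∀ x ∈ Ψ.source, x ∈ V → (x ∈ S ↔ (Ψ x) 2 = 0)) :
    FlatChart S q False := by
  refine ⟨(Ψ.restrOpen V hV).transHomeomorph (Homeomorph.addRight (-Ψ q)), ⟨hq, hqV⟩, ?_, ?_, ?_, ?_⟩
  · change Ψ q + -Ψ q = 0
    simp
  · change ContDiffOn ℝ ∞ (fun x => Ψ x + -Ψ q) (Ψ.source ∩ V)
    exact (h1.mono inter_subset_left).add contDiffOn_const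
  · have : ContDiffOn ℝ ∞ (fun y => Ψ.symm (y + - -Ψ q)) {y | y + - -Ψ q ∈ Ψ.target} :=
      h2.comp ((contDiff_id.add contDiff_const).contDiffOn) fun y hy => hy
    refine this.mono ?_
    intro y hy
    exact hy.1
  · rintro x ⟨hx, hxV⟩
    rw [hS x hx hxV]
    change (Ψ x) 2 = 0 ↔ (Ψ x + -Ψ q) 2 = 0 ∧ (False → 0 ≤ (Ψ x + -Ψ q) 0)
    have : (Ψ x + -Ψ q) 2 = (Ψ x) 2 := by simp [hq2]
    rw [this]
    simp

/-- local connectedness of the set of interior points at all points of the crack -/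
theorem local_conn {S : Set E} {p : E} (hc : FlatChart S p False ∨ FlatChart S p True)
    {N : Set E} (hN : IsOpen N) (hpN : p ∈ N) : ∃ W : Set E, IsOpen W ∧ p ∈ W ∧ W ⊆ N ∧
      IsPreconnected (W ∩ intPts S) ∧ (W ∩ intPts S).Nonempty := by
  have hcase : ∃ half : Prop, FlatChart S p half := by
    rcases hc with h | h
    exacts [⟨_, h⟩, ⟨_, h⟩]
  obtain ⟨half, Ψ, hp, hp0, h1, h2, hS⟩ := hcase
  have h0 : (0 : E) ∈ Ψ.target := by rw [← hp0]; exact Ψ.map_source hp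
  have hs0 : Ψ.symm 0 = p := by rw [← hp0]; exact Ψ.left_inv hp
  -- a ball in the chart
  have hnb : Ψ.target ∩ Ψ.symm ⁻¹' N ∈ 𝓝 (0 : E) := by
    refine (Ψ.symm.isOpen_inter_preimage hN).mem_nhds ⟨h0, ?_⟩
    change Ψ.symm 0 ∈ N
    rwa [hs0]
  obtain ⟨e, he, hball⟩ := Metric.mem_nhds_iff.1 hnb
  have hbt : ball (0 : E) e ⊆ Ψ.target := fun y hy => (hball hy).1
  obtain ⟨W, hW⟩ : ∃ W : Set E, W = Ψ.source ∩ Ψ ⁻¹' ball 0 e := ⟨_, rfl⟩
  have hWo : IsOpen W := by rw [hW]; exact Ψ.isOpen_inter_preimage isOpen_ball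
  have hpW : p ∈ W := by
    rw [hW, mem_inter_iff, mem_preimage, hp0]
    exact ⟨hp, mem_ball_self he⟩
  have hWN : W ⊆ N := by
    intro x hxW
    rw [hW] at hxW
    have := (hball hxW.2).2
    rw [mem_preimage, Ψ.left_inv hxW.1] at this
    exact this
  -- the open half plane (or plane)
  obtain ⟨Q, hQ⟩ : ∃ Q : Set E, ∀ y, y ∈ Q ↔ y ∈ ball (0 : E) e ∧ y 2 = 0 ∧ (half → 0 < y 0) :=
    ⟨{y | y ∈ ball (0 : E) e ∧ y 2 = 0 ∧ (half → 0 < y 0)}, fun y => Iff.rfl⟩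
  have hc2 : ∀ k : Fin 3, Continuous fun y : E => y k := fun k => by fun_prop
  have hQconv : Convex ℝ Q := by
    intro a ha b hb s t hs ht hst
    obtain ⟨ha1, ha2, ha3⟩ := (hQ a).1 ha
    obtain ⟨hb1, hb2, hb3⟩ := (hQ b).1 hb
    rw [hQ]
    refine ⟨convex_ball _ _ ha1 hb1 hs ht hst, ?_, fun hh => ?_⟩
    · simp [ha2, hb2]
    · have h3 := ha3 hh
      have h4 := hb3 hh
      change 0 < s * a 0 + t * b 0
      rcases eq_or_lt_of_le hs with h5 | h5
      · rw [← h5] at hst ⊢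
        have : t = 1 := by linarith
        rw [this]; linarith
      · have := mul_pos h5 h3
        have := mul_nonneg ht h4.le
        linarith
  obtain ⟨P, hP⟩ : ∃ P : Set E, P = Ψ.symm '' Q := ⟨_, rfl⟩
  have hPpre : IsPreconnected P := by
    rw [hP]
    exact hQconv.isPreconnected.image _ ((Ψ.continuousOn_symm).mono fun y hy => hbt ((hQ y).1 hy).1)
  have hPint : P ⊆ W ∩ intPts S := by
    intro x hxP
    rw [hP] at hxP
    obtain ⟨y, hyQ, rfl⟩ := hxP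
    obtain ⟨hy1, hy2, hy3⟩ := (hQ y).1 hyQ
    have hyt : y ∈ Ψ.target := hbt hy1
    have hxs : Ψ.symm y ∈ Ψ.source := Ψ.map_target hyt
    have hΨ : Ψ (Ψ.symm y) = y := Ψ.right_inv hyt
    have hxW : Ψ.symm y ∈ W := by
      rw [hW, mem_inter_iff, mem_preimage, hΨ]
      exact ⟨hxs, hy1⟩
    have hxS : Ψ.symm y ∈ S := by
      rw [hS _ hxs, hΨ]
      exact ⟨hy2, fun h => (hy3 h).le⟩
    refine mem_inter hxW ?_
    have hfl : FlatChart S (Ψ.symm y) False := by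
      by_cases hh : half
      · have hVo : IsOpen (Ψ.source ∩ Ψ ⁻¹' {z | 0 < z 0}) :=
          Ψ.isOpen_inter_preimage (isOpen_lt continuous_const (hc2 0))
        have hxV : Ψ.symm y ∈ Ψ.source ∩ Ψ ⁻¹' {z | 0 < z 0} := by
          rw [mem_inter_iff, mem_preimage, hΨ]
          exact ⟨hxs, hy3 hh⟩
        refine flat_move h1 h2 hVo hxs hxV (by rw [hΨ]; exact hy2) ?_
        rintro x hx ⟨-, hxV'⟩
        rw [hS x hx]
        exact ⟨fun h => h.1, fun h => ⟨h, fun _ => le_of_lt hxV'⟩⟩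
      · refine flat_move h1 h2 isOpen_univ hxs (mem_univ _) (by rw [hΨ]; exact hy2) ?_
        intro x hx _
        rw [hS x hx]
        exact ⟨fun h => h.1, fun h => ⟨h, fun h' => (hh h').elim⟩⟩
    exact ⟨hxS, hfl⟩
  have hcl : W ∩ intPts S ⊆ closure P := by
    rintro x ⟨hxW, hxS, -⟩
    rw [hW, mem_inter_iff, mem_preimage] at hxW
    obtain ⟨hx, hxe⟩ := hxW
    have h3 := (hS x hx).1 hxS
    obtain ⟨y, hy⟩ : ∃ y : E, y = Ψ x := ⟨_, rfl⟩
    have hxy : Ψ.symm y = x := by rw [hy]; exact Ψ.left_inv hx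
    rw [← hy] at h3 hxe
    -- the points y + t e_0
    have hcv : Continuous fun t : ℝ => y + t • (ev 0 : E) := by fun_prop
    have ht0 : Tendsto (fun t : ℝ => y + t • (ev 0 : E)) (𝓝[>] 0) (𝓝 y) := by
      have := hcv.tendsto 0
      rw [zero_smul, add_zero] at this
      exact this.mono_left nhdsWithin_le_nhds
    have ht1 : Tendsto (fun t : ℝ => Ψ.symm (y + t • (ev 0 : E))) (𝓝[>] 0) (𝓝 x) := by
      have := (Ψ.continuousAt_symm (hbt hxe)).tendsto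
      rw [hxy] at this
      exact this.comp ht0
    refine mem_closure_of_tendsto ht1 ?_
    filter_upwards [ht0 (isOpen_ball.mem_nhds hxe), self_mem_nhdsWithin] with t ht htp
    rw [hP]
    refine mem_image_of_mem _ ?_
    rw [hQ]
    refine ⟨ht, ?_, fun hh => ?_⟩
    · simp [h3.1]
    · have := h3.2 hh
      have h5 : (y + t • (ev 0 : E)) 0 = y 0 + t := by simp
      rw [h5]
      have : (0 : ℝ) < t := htp
      linarith
  refine ⟨W, hWo, hpW, hWN, hPpre.subset_closure hPint hcl, ?_⟩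
  -- nonempty
  have hQne : Q.Nonempty := by
    refine ⟨(e / 2) • (ev 0 : E), ?_⟩
    rw [hQ]
    refine ⟨?_, ?_, fun _ => ?_⟩
    · rw [mem_ball_zero_iff, norm_smul]
      simp [abs_of_pos he]
      linarith
    · simp
    · simp [he]
  have hPne : P.Nonempty := by rw [hP]; exact hQne.image _
  exact hPne.mono hPint

theorem cni : T_CNI := by
  intro Ω S hS U V hU hV hcov hUne hVne
  by_contra hne
  rw [not_nonempty_iff_eq_empty] at hne
  have hdisj : ∀ x ∈ intPts S, x ∈ U → x ∈ V → False := by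
    intro x hx h1 h2
    have : x ∈ intPts S ∩ (U ∩ V) := ⟨hx, h1, h2⟩
    rw [hne] at this
    exact this
  have hloc : ∀ p ∈ S, ∀ N : Set E, IsOpen N → p ∈ N → ∃ W : Set E, IsOpen W ∧ p ∈ W ∧ W ⊆ N ∧
      IsPreconnected (W ∩ intPts S) ∧ (W ∩ intPts S).Nonempty := by
    intro p hp N hN hpN
    refine local_conn ?_ hN hpN
    rcases hS.chart p hp with h | h
    · exact Or.inl h.2
    · exact Or.inr h.2
  set A : Set E := {x | ∃ W : Set E, IsOpen W ∧ x ∈ W ∧ W ∩ intPts S ⊆ U} with hA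
  set B : Set E := {x | ∃ W : Set E, IsOpen W ∧ x ∈ W ∧ W ∩ intPts S ⊆ V} with hB
  have hAo : IsOpen A := by
    rw [isOpen_iff_mem_nhds]
    rintro x ⟨W, hW, hxW, hWU⟩
    filter_upwards [hW.mem_nhds hxW] with y hy
    exact ⟨W, hW, hy, hWU⟩
  have hBo : IsOpen B := by
    rw [isOpen_iff_mem_nhds]
    rintro x ⟨W, hW, hxW, hWU⟩
    filter_upwards [hW.mem_nhds hxW] with y hy
    exact ⟨W, hW, hy, hWU⟩
  have hcovS : S ⊆ A ∪ B := by
    intro p hp
    obtain ⟨W, hW, hpW, -, hpre, -⟩ := hloc p hp univ isOpen_univ (mem_univ _)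
    by_contra hcon
    have hnA : ¬ W ∩ intPts S ⊆ U := fun h => hcon (Or.inl ⟨W, hW, hpW, h⟩)
    have hnB : ¬ W ∩ intPts S ⊆ V := fun h => hcon (Or.inr ⟨W, hW, hpW, h⟩)
    obtain ⟨a, ha, haU⟩ := not_subset.1 hnA
    obtain ⟨b, hb, hbV⟩ := not_subset.1 hnB
    have haV : a ∈ V := (hcov ha.2).resolve_left haU
    have hbU : b ∈ U := (hcov hb.2).resolve_right hbV
    obtain ⟨c, hc, hcU, hcV⟩ := hpre U V hU hV (inter_subset_right.trans hcov) ⟨b, hb, hbU⟩ ⟨a, ha, haV⟩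
    exact hdisj c hc.2 hcU hcV
  have hSA : (S ∩ A).Nonempty := by
    obtain ⟨x, hx, hxU⟩ := hUne
    exact ⟨x, hx.1, U, hU, hxU, inter_subset_left⟩
  have hSB : (S ∩ B).Nonempty := by
    obtain ⟨x, hx, hxV⟩ := hVne
    exact ⟨x, hx.1, V, hV, hxV, inter_subset_left⟩
  obtain ⟨x, hxS, ⟨W₁, hW₁, hx₁, hU₁⟩, W₂, hW₂, hx₂, hV₂⟩ :=
    hS.conn.isPreconnected A B hAo hBo hcovS hSA hSB
  obtain ⟨W, -, -, hWN, -, y, hyW, hyI⟩ := hloc x hxS (W₁ ∩ W₂) (hW₁.inter hW₂) ⟨hx₁, hx₂⟩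
  exact hdisj y hyI (hU₁ ⟨(hWN hyW).1, hyI⟩) (hV₂ ⟨(hWN hyW).2, hyI⟩)

end Pool.Agent.H56.ICA
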