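import Mathlib
import Pool.Agent.H94.AC.Targets

/-!
# Real-analytic insulating cracks, module DSJ: interior points are not points of the edge
-/

open MeasureTheory Set Filter Topology Metric
open scoped ENNReal NNReal ContDiff RealInnerProductSpace

namespace Pool.Agent.H56.ICA

open Pool.Agent.H94.IC Pool.Agent.H94.AC

/-- charts are differentiable with differentiable inverse -/
theorem chart_diff {Ψ : OpenPartialHomeomorph E E} (h1 : ContDiffOn ℝ ∞ Ψ Ψ.source) {x : E}
    (hx : x ∈ Ψ.source) : DifferentiableAt ℝ Ψ x :=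
  (h1.contDiffAt (Ψ.open_source.mem_nhds hx)).differentiableAt (by simp)

theorem chart_symm_diff {Ψ : OpenPartialHomeomorph E E} (h1 : ContDiffOn ℝ ∞ Ψ.symm Ψ.target) {y : E}
    (hy : y ∈ Ψ.target) : DifferentiableAt ℝ Ψ.symm y :=
  (h1.contDiffAt (Ψ.open_target.mem_nhds hy)).differentiableAt (by simp)

/-- the derivative of the inverse chart is a right inverse of the derivative of the chart -/
theorem chart_fderiv {Ψ : OpenPartialHomeomorph E E} (h1 : ContDiffOn ℝ ∞ Ψ Ψ.source)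
    (h2 : ContDiffOn ℝ ∞ Ψ.symm Ψ.target) {y : E} (hy : y ∈ Ψ.target) (v : E) :
    fderiv ℝ Ψ (Ψ.symm y) (fderiv ℝ Ψ.symm y v) = v := by
  have ha := (chart_diff h1 (Ψ.map_target hy)).hasFDerivAt
  have hb := (chart_symm_diff h2 hy).hasFDerivAt
  have hc := ha.comp y hb
  have hid : HasFDerivAt (fun z => Ψ (Ψ.symm z)) (ContinuousLinearMap.id ℝ E) y := by
    refine (hasFDerivAt_id y).congr_of_eventuallyEq ?_
    filter_upwards [Ψ.open_target.mem_nhds hy] with z hz
    exact Ψ.right_inv hz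
  have := hc.unique hid
  exact congrArg (fun L : E →L[ℝ] E => L v) this

/-- the derivative of the chart is a right inverse of the derivative of the inverse chart -/
theorem chart_fderiv' {Ψ : OpenPartialHomeomorph E E} (h1 : ContDiffOn ℝ ∞ Ψ Ψ.source)
    (h2 : ContDiffOn ℝ ∞ Ψ.symm Ψ.target) {x : E} (hx : x ∈ Ψ.source) (v : E) :
    fderiv ℝ Ψ.symm (Ψ x) (fderiv ℝ Ψ x v) = v := by
  have ha := (chart_symm_diff h2 (Ψ.map_source hx)).hasFDerivAt
  have hb := (chart_diff h1 hx).hasFDerivAt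
  have hc := ha.comp x hb
  have hid : HasFDerivAt (fun z => Ψ.symm (Ψ z)) (ContinuousLinearMap.id ℝ E) x := by
    refine (hasFDerivAt_id x).congr_of_eventuallyEq ?_
    filter_upwards [Ψ.open_source.mem_nhds hx] with z hz
    exact Ψ.left_inv hz
  have := hc.unique hid
  exact congrArg (fun L : E →L[ℝ] E => L v) this

theorem dsj : T_DSJ := by
  rintro S p ⟨⟨Ψ, hp, hp0, hΨ, hΨs, hS⟩, ⟨Φ, hq, hq0, hΦ, hΦs, hT⟩⟩
  have h0 : (0 : E) ∈ Ψ.target := by rw [← hp0]; exact Ψ.map_source hp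
  have hs0 : Ψ.symm 0 = p := by rw [← hp0]; exact Ψ.left_inv hp
  set A : E →L[ℝ] E := (fderiv ℝ Φ p).comp (fderiv ℝ Ψ.symm 0) with hA
  have hAd : HasFDerivAt (fun y => Φ (Ψ.symm y)) A 0 := by
    have ha : HasFDerivAt Φ (fderiv ℝ Φ p) (Ψ.symm 0) := by
      rw [hs0]; exact (chart_diff hΦ hq).hasFDerivAt
    exact ha.comp (0 : E) (chart_symm_diff hΨs h0).hasFDerivAt
  have hinj : ∀ v : E, A v = 0 → v = 0 := by
    intro v hv
    have h1 : fderiv ℝ Φ.symm (Φ p) (A v) = fderiv ℝ Ψ.symm 0 v := by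
      rw [hA, ContinuousLinearMap.comp_apply]
      exact chart_fderiv' hΦ hΦs hq _
    rw [hv, map_zero] at h1
    have h2 := chart_fderiv hΨ hΨs h0 v
    rw [← h1, map_zero] at h2
    exact h2.symm
  -- the image of the plane
  have hpl : ∀ v : E, v 2 = 0 → (A v) 2 = 0 ∧ (A v) 0 = 0 := by
    intro v hv
    have hcurve : HasDerivAt (fun t : ℝ => Φ (Ψ.symm (t • v))) (A v) 0 := by
      have h1 : HasDerivAt (fun t : ℝ => t • v) ((1 : ℝ) • v) 0 := (hasDerivAt_id (0 : ℝ)).smul_const v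
      rw [one_smul] at h1
      have h2 : HasFDerivAt (fun y => Φ (Ψ.symm y)) A ((0 : ℝ) • v) := by rwa [zero_smul]
      exact HasFDerivAt.comp_hasDerivAt (l := fun y => Φ (Ψ.symm y)) (f := fun t : ℝ => t • v) (0 : ℝ) h2 h1
    have hev : ∀ᶠ t : ℝ in 𝓝 0, (Φ (Ψ.symm (t • v))) 2 = 0 ∧ 0 ≤ (Φ (Ψ.symm (t • v))) 0 := by
      have hc1 : Tendsto (fun t : ℝ => t • v) (𝓝 0) (𝓝 0) := by
        have : Continuous fun t : ℝ => t • v := by fun_prop
        have h := this.tendsto 0
        simpa using h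
      have hc2 : Tendsto (fun t : ℝ => Ψ.symm (t • v)) (𝓝 0) (𝓝 p) := by
        have h := (Ψ.continuousAt_symm h0).tendsto
        rw [hs0] at h
        exact h.comp hc1
      filter_upwards [hc1 (Ψ.open_target.mem_nhds h0), hc2 (Φ.open_source.mem_nhds hq)] with t ht1 ht2
      have h3 : Ψ.symm (t • v) ∈ S := by
        rw [hS _ (Ψ.map_target ht1)]
        refine ⟨?_, fun h => h.elim⟩
        rw [Ψ.right_inv ht1]
        simp [hv]
      have h4 := (hT _ ht2).1 h3
      exact ⟨h4.1, h4.2 trivial⟩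
    have hcoord : ∀ k : Fin 3, HasDerivAt (fun t : ℝ => (Φ (Ψ.symm (t • v))) k) ((A v) k) 0 := by
      intro k
      have := ((EuclideanSpace.proj k : E →L[ℝ] ℝ).hasFDerivAt (x := Φ (Ψ.symm ((0 : ℝ) • v)))).comp_hasDerivAt
        (0 : ℝ) hcurve
      exact this
    constructor
    · have h5 : HasDerivAt (fun t : ℝ => (Φ (Ψ.symm (t • v))) 2) 0 0 := by
        refine (hasDerivAt_const (0 : ℝ) (0 : ℝ)).congr_of_eventuallyEq ?_
        filter_upwards [hev] with t ht
        exact ht.1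
      exact (hcoord 2).unique h5
    · have h6 : IsLocalMin (fun t : ℝ => (Φ (Ψ.symm (t • v))) 0) 0 := by
        filter_upwards [hev] with t ht
        have : (Φ (Ψ.symm ((0 : ℝ) • v))) 0 = 0 := by
          rw [zero_smul, hs0, hq0]; rfl
        rw [this]
        exact ht.2
      exact h6.hasDerivAt_eq_zero (hcoord 0)
  have he0 : (ev 0 : E) 2 = 0 := by simp
  have he1 : (ev 1 : E) 2 = 0 := by simp
  obtain ⟨a2, a0⟩ := hpl _ he0
  obtain ⟨b2, b0⟩ := hpl _ he1
  have hcomb : A ((A (ev 1)) 1 • ev 0 - (A (ev 0)) 1 • ev 1) = 0 := by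
    rw [map_sub, map_smul, map_smul]
    ext k
    fin_cases k
    · simp [a0, b0]
    · simp [mul_comm]
    · simp [a2, b2]
  have h7 := hinj _ hcomb
  have h8 : (A (ev 0)) 1 = 0 := by
    have := congrArg (fun w : E => w 1) h7
    simpa using this
  have h9 : A (ev 0) = 0 := by
    ext k
    fin_cases k
    · exact a0
    · exact h8
    · exact a2
  have h10 := hinj _ h9
  have := congrArg (fun w : E => w 0) h10
  simp at this

end Pool.Agent.H56.ICA
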