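import Mathlib
import Pool.Agent.H94.AC.Targets
import Pool.Agent.H73.IC.HX
import Pool.Agent.H73.IC.PRO
import Pool.Agent.H14.IC.INC
import Pool.Agent.H27.IC.GHC
import Pool.Agent.H29.IC.HRX
import Pool.Agent.H29.IC.HSM
import Pool.Agent.H58.IC.NWT
import Pool.Agent.H2.IC.NVC

/-!
# Real-analytic insulating cracks, module NVO: the solution for the first profile is nowhere locally constant
-/

open MeasureTheory Set Filter Topology Metric
open scoped ENNReal NNReal ContDiff RealInnerProductSpace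

namespace Pool.Agent.H56.ICA

open Pool.Agent.H94.IC Pool.Agent.H94.AC

theorem nvo (hHRX : T_HRX) : T_NVO := by
  intro Ω S σ ν h τ hD hσ hS hSΩ hvol hpre hharm hsol W hW hWne hWsub hzero
  have hOop : IsOpen (Ω \ S) := hD.op.sdiff hS.isClosed
  have hpd : ∀ l, ∀ x ∈ Ω \ S, pd l h x = 0 := by
    intro l
    refine Pool.Agent.H73.IC.idt (Ω \ S) W (pd l h) hOop hpre ?_ ?_ hW hWne hWsub ?_
    · exact (Pool.Agent.H14.IC.contDiffOn_pd hOop hharm.1 l).continuousOn
    · intro p hp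
      obtain ⟨r, hr, hball⟩ := Metric.isOpen_iff.1 hOop p hp
      refine ⟨r / 16, by positivity, ?_⟩
      refine Pool.Agent.H73.IC.hxp Pool.Agent.H27.IC.ghc p (r / 16) (Ω \ S) h l hOop
        hharm.1 ?_ (hHRX (Ω \ S) h p r hharm hr hball)
      intro x hx
      exact hball (Pool.Agent.H14.IC.mem_ball_of_cx hr hx)
    · intro x hx
      exact Pool.Agent.H2.IC.pd_eq_zero (hzero x hx) l
  have hgr : ∀ x ∈ Ω \ S, gr h x = 0 := fun x hx =>
    Pool.Agent.H2.IC.gr_eq_zero fun l => hpd l x hx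
  have hae : ∀ᵐ x ∂(volume.restrict Ω), gr h x = 0 := by
    have h1 : ∀ᵐ x ∂(volume : Measure E), x ∉ S := by
      rw [ae_iff]
      simpa using hvol
    rw [ae_restrict_iff' hD.op.measurableSet]
    filter_upwards [h1] with x hx hxΩ
    exact hgr x ⟨hxΩ, hx⟩
  obtain ⟨-, -, -, hsm, -⟩ := Pool.Agent.H29.IC.hsm Ω S σ ν hD.op hD.bdd hσ hS hSΩ
  have hco : ContDiff ℝ ∞ (fun x : E => x 0) := contDiff_piLp_apply (p := 2)
  have hw : ∫ x, ν x 0 * x 0 ∂σ = 0 := by
    have h1 := hsol.weak _ _ _ (hsm _ hco)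
    have h3 : ∫ x, prof2 ν 0 x * x 0 ∂σ = ∫ x, ν x 0 * x 0 ∂σ := rfl
    rw [← h3, ← h1]
    have h2 : ∫ x in Ω, ⟪gr h x, gr (fun x : E => x 0) x⟫ = ∫ x in Ω, (0 : ℝ) := by
      refine integral_congr_ae ?_
      filter_upwards [hae] with x hx
      rw [hx, inner_zero_left]
    rw [h2, integral_zero]
  -- the Gauss Green formula
  have hX : ContDiff ℝ 1 (fun x : E => x 0 • (ev 0 : E)) :=
    (hco.of_le (by simp)).smul contDiff_const
  have hgg := Pool.Agent.H73.IC.gauss_green hD.bdd hD.op.measurableSet hσ hX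
  have e1 : ∫ x in Ω, dv (fun x : E => x 0 • (ev 0 : E)) x = (volume Ω).toReal := by
    have : ∀ x : E, dv (fun x : E => x 0 • (ev 0 : E)) x = 1 := by
      intro x
      have hd : HasFDerivAt (fun x : E => x 0 • (ev 0 : E))
          ((EuclideanSpace.proj 0 : E →L[ℝ] ℝ).smulRight (ev 0)) x :=
        ((EuclideanSpace.proj 0 : E →L[ℝ] ℝ).hasFDerivAt (x := x)).smul_const (ev 0)
      unfold dv
      rw [hd.fderiv]
      simp [Fin.sum_univ_three]
    simp_rw [this]
    simp [Measure.real]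
  have e2 : ∫ x, ⟪x 0 • (ev 0 : E), ν x⟫ ∂σ = ∫ x, ν x 0 * x 0 ∂σ := by
    refine integral_congr_ae (ae_of_all _ fun x => ?_)
    simp only
    have h5 : ⟪(ev 0 : E), ν x⟫ = ν x 0 := by
      rw [EuclideanSpace.inner_single_left]
      simp
    rw [real_inner_smul_left, h5, mul_comm]
  rw [e1, e2, hw] at hgg
  have hvpos : 0 < (volume Ω).toReal := by
    refine ENNReal.toReal_pos ?_ hD.bdd.measure_lt_top.ne
    refine (hD.op.measure_pos volume ?_).ne'
    obtain ⟨x, hx⟩ := hWne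
    exact ⟨x, (hWsub hx).1⟩
  exact hvpos.ne' hgg

theorem nvo_proof : T_NVO := nvo (Pool.Agent.H29.IC.hrx Pool.Agent.H58.IC.nwt)

end Pool.Agent.H56.ICA
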